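import Mathlib

set_option autoImplicit false

open Filter Topology

namespace MP018e

/-- A synonym of `Finset ℕ` carrying the semigroup structure of union. -/
structure FU where
  s : Finset ℕ

instance : Semigroup FU where
  mul a b := ⟨a.s ∪ b.s⟩
  mul_assoc a b c := by
    show (⟨(a.s ∪ b.s) ∪ c.s⟩ : FU) = ⟨a.s ∪ (b.s ∪ c.s)⟩
    rw [Finset.union_assoc]

theorem FU.mul_s (a b : FU) : (a * b).s = a.s ∪ b.s := rfl

/-- The properties of the idempotent ultrafilter which we use. -/
structure Idem (p : Ultrafilter (Finset ℕ)) : Prop where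
  idem : ∀ P : Finset ℕ → Prop, (∀ᶠ c in (p : Filter (Finset ℕ)), P c) →
    ∀ᶠ a in (p : Filter (Finset ℕ)), ∀ᶠ b in (p : Filter (Finset ℕ)), P (a ∪ b)
  far : ∀ m : ℕ, ∀ᶠ b in (p : Filter (Finset ℕ)), b.Nonempty ∧ ∀ i ∈ b, m < i

attribute [local instance] Ultrafilter.mul Ultrafilter.semigroup

theorem exists_idem : ∃ p : Ultrafilter (Finset ℕ), Idem p := by
  classical
  let S : Set (Ultrafilter FU) :=
    {p | ∀ m : ℕ, ∀ᶠ b in (p : Filter FU), b.s.Nonempty ∧ ∀ i ∈ b.s, m < i}
  have hcl : IsClosed S := by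
    have : S = ⋂ m : ℕ, {p : Ultrafilter FU | {b : FU | b.s.Nonempty ∧ ∀ i ∈ b.s, m < i} ∈ p} := by
      ext p
      simp only [Set.mem_iInter]
      rfl
    rw [this]
    exact isClosed_iInter fun m => ultrafilter_isClosed_basic _
  have hcomp : IsCompact S := hcl.isCompact
  have hne : S.Nonempty := by
    let f : ℕ → FU := fun n => ⟨{n}⟩
    let h : Ultrafilter ℕ := Filter.hyperfilter ℕ
    refine ⟨h.map f, ?_⟩
    intro m
    show ∀ᶠ n in (h : Filter ℕ), (f n).s.Nonempty ∧ ∀ i ∈ (f n).s, m < i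
    have h1 : (h : Filter ℕ) ≤ Filter.cofinite := Filter.hyperfilter_le_cofinite
    have h2 : ∀ᶠ n in (Filter.cofinite : Filter ℕ), m < n := by
      rw [Nat.cofinite_eq_atTop]
      exact Filter.eventually_gt_atTop m
    filter_upwards [h1 h2] with n hn
    refine ⟨Finset.singleton_nonempty n, ?_⟩
    intro i hi
    have : i = n := by simpa [f] using hi
    rw [this]
    exact hn
  have hmul : ∀ x ∈ S, ∀ y ∈ S, x * y ∈ S := by
    intro x hx y hy m
    have := (Ultrafilter.eventually_mul x y (fun b : FU => b.s.Nonempty ∧ ∀ i ∈ b.s, m < i)).2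
    refine this ?_
    filter_upwards [hx m] with a ha
    filter_upwards [hy m] with b hb
    rw [FU.mul_s]
    refine ⟨ha.1.mono Finset.subset_union_left, ?_⟩
    intro i hi
    rcases Finset.mem_union.1 hi with h | h
    · exact ha.2 i h
    · exact hb.2 i h
  obtain ⟨q, hqS, hq⟩ := exists_idempotent_in_compact_subsemigroup
    (fun r => Ultrafilter.continuous_mul_left r) S hne hcomp hmul
  refine ⟨q.map FU.s, ?_, ?_⟩
  · intro P hP
    have hP' : ∀ᶠ c in (q : Filter FU), P c.s := hP
    rw [← hq] at hP'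
    exact (Ultrafilter.eventually_mul q q (fun c : FU => P c.s)).1 hP'
  · intro m
    exact hqS m

variable {p : Ultrafilter (Finset ℕ)}

theorem Idem.disj (hp : Idem p) (a : Finset ℕ) :
    ∀ᶠ b in (p : Filter (Finset ℕ)), Disjoint a b := by
  filter_upwards [hp.far (a.sup id)] with b hb
  rw [Finset.disjoint_left]
  intro i hi hib
  have h1 : i ≤ a.sup id := Finset.le_sup (f := id) hi
  have h2 := hb.2 i hib
  omega

theorem Idem.nonempty (hp : Idem p) :
    ∀ᶠ b in (p : Filter (Finset ℕ)), b.Nonempty := by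
  filter_upwards [hp.far 0] with b hb using hb.1

/-- Bounded real functions converge along an ultrafilter. -/
theorem exists_lim {α : Type*} (p : Ultrafilter α) (u : α → ℝ) (C : ℝ) (h : ∀ b, |u b| ≤ C) :
    ∃ l, Tendsto u (p : Filter α) (𝓝 l) := by
  have hc : IsCompact (Set.Icc (-C) C) := isCompact_Icc
  have hle : ((p.map u : Ultrafilter ℝ) : Filter ℝ) ≤ 𝓟 (Set.Icc (-C) C) := by
    rw [Filter.le_principal_iff]
    show ∀ᶠ b in (p : Filter α), u b ∈ Set.Icc (-C) C
    exact Filter.Eventually.of_forall fun b => abs_le.1 (h b)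
  obtain ⟨l, _, hl⟩ := hc.ultrafilter_le_nhds _ hle
  exact ⟨l, hl⟩

end MP018e
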