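import Mathlib
import Pool.Agent.Lib.MP_018e2a_an.Idem

set_option autoImplicit false

open Filter Topology
open scoped RealInnerProductSpace

namespace MP018e

variable {H : Type*} [NormedAddCommGroup H] [InnerProductSpace ℝ H] [CompleteSpace H]
variable {p : Ultrafilter (Finset ℕ)}

theorem exists_weak_lim (p : Ultrafilter (Finset ℕ)) (u : Finset ℕ → H) (C : ℝ)
    (hC : ∀ b, ‖u b‖ ≤ C) :
    ∃ e : H, ∀ g : H, Tendsto (fun b => ⟪u b, g⟫) (p : Filter (Finset ℕ)) (𝓝 ⟪e, g⟫) := by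
  have hC0 : 0 ≤ C := (norm_nonneg (u ∅)).trans (hC ∅)
  have hex : ∀ g : H, ∃ l, Tendsto (fun b => ⟪u b, g⟫) (p : Filter (Finset ℕ)) (𝓝 l) := by
    intro g
    refine exists_lim p _ (C * ‖g‖) fun b => ?_
    exact (abs_real_inner_le_norm _ _).trans (mul_le_mul_of_nonneg_right (hC b) (norm_nonneg g))
  choose L hL using hex
  have hadd : ∀ g g', L (g + g') = L g + L g' := by
    intro g g'
    refine tendsto_nhds_unique (hL (g + g')) ?_
    have := (hL g).add (hL g')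
    simpa [inner_add_right] using this
  have hsmul : ∀ (c : ℝ) g, L (c • g) = c * L g := by
    intro c g
    refine tendsto_nhds_unique (hL (c • g)) ?_
    have := (hL g).const_mul c
    simpa [inner_smul_right] using this
  have hbd : ∀ g, ‖L g‖ ≤ C * ‖g‖ := by
    intro g
    have h1 := (hL g).norm
    refine le_of_tendsto h1 (Eventually.of_forall fun b => ?_)
    exact (abs_real_inner_le_norm _ _).trans (mul_le_mul_of_nonneg_right (hC b) (norm_nonneg g))
  let ℓ : H →ₗ[ℝ] ℝ :=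
    { toFun := L
      map_add' := hadd
      map_smul' := by
        intro c g
        simpa using hsmul c g }
  let ℓ' : H →L[ℝ] ℝ := ℓ.mkContinuous C hbd
  refine ⟨(InnerProductSpace.toDual ℝ H).symm ℓ', fun g => ?_⟩
  have : ⟪(InnerProductSpace.toDual ℝ H).symm ℓ', g⟫ = L g := by
    rw [InnerProductSpace.toDual_symm_apply]
    rfl
  rw [this]
  exact hL g

/-- The key inequality: along an idempotent ultrafilter the limit of `⟪V W_b f, f⟫` is at most the
limit of `⟪W_b f, f⟫`, for a linear IP system `W` of isometries commuting with the isometry `V`. -/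
theorem ip_le (hp : Idem p) (W : Finset ℕ → (H →L[ℝ] H)) (V : H →L[ℝ] H)
    (hW : ∀ b x, ‖W b x‖ = ‖x‖) (hV : ∀ x, ‖V x‖ = ‖x‖)
    (hWi : ∀ b x y, ⟪W b x, W b y⟫ = ⟪x, y⟫)
    (hmul : ∀ a, ∀ᶠ b in (p : Filter (Finset ℕ)), ∀ x, W (a ∪ b) x = W a (W b x))
    (hcomm : ∀ b x, V (W b x) = W b (V x)) (f : H) (a c : ℝ)
    (ha : Tendsto (fun b => ⟪V (W b f), f⟫) (p : Filter (Finset ℕ)) (𝓝 a))
    (hc : Tendsto (fun b => ⟪W b f, f⟫) (p : Filter (Finset ℕ)) (𝓝 c)) : a ≤ c := by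
  obtain ⟨e, he⟩ := exists_weak_lim p (fun b => W b f) ‖f‖ (fun b => (hW b f).le)
  -- step 1 : `W b e → e` weakly
  have h1 : ∀ g : H, Tendsto (fun b => ⟪W b e, g⟫) (p : Filter (Finset ℕ)) (𝓝 ⟪e, g⟫) := by
    intro g
    obtain ⟨l, hl⟩ := exists_lim p (fun b => ⟪W b e, g⟫) (‖e‖ * ‖g‖) (fun b => by
      refine (abs_real_inner_le_norm _ _).trans ?_
      rw [hW])
    have hlim : ∀ b1, Tendsto (fun b2 => ⟪W (b1 ∪ b2) f, g⟫) (p : Filter (Finset ℕ))
        (𝓝 ⟪W b1 e, g⟫) := by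
      intro b1
      have h2 := he ((ContinuousLinearMap.adjoint (W b1)) g)
      have h3 : ⟪e, (ContinuousLinearMap.adjoint (W b1)) g⟫ = ⟪W b1 e, g⟫ := by
        rw [ContinuousLinearMap.adjoint_inner_right]
      rw [h3] at h2
      refine h2.congr' ?_
      filter_upwards [hmul b1] with b2 hb2
      rw [hb2, ContinuousLinearMap.adjoint_inner_right]
    have : l = ⟪e, g⟫ := by
      by_contra hne
      set d := |l - ⟪e, g⟫| with hd
      have hd0 : 0 < d := abs_pos.2 (sub_ne_zero.2 hne)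
      have hA : ∀ᶠ b in (p : Filter (Finset ℕ)), |⟪W b f, g⟫ - ⟪e, g⟫| < d / 3 := by
        have := Metric.tendsto_nhds.1 (he g) (d / 3) (by positivity)
        simpa [Real.dist_eq] using this
      have hB := hp.idem _ hA
      have hC : ∀ᶠ b in (p : Filter (Finset ℕ)), |⟪W b e, g⟫ - l| < d / 3 := by
        have := Metric.tendsto_nhds.1 hl (d / 3) (by positivity)
        simpa [Real.dist_eq] using this
      obtain ⟨b1, hb1, hb1'⟩ := (hB.and hC).exists
      have hD : ∀ᶠ b2 in (p : Filter (Finset ℕ)), |⟪W (b1 ∪ b2) f, g⟫ - ⟪W b1 e, g⟫| < d / 3 := by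
        have := Metric.tendsto_nhds.1 (hlim b1) (d / 3) (by positivity)
        simpa [Real.dist_eq] using this
      obtain ⟨b2, hb2, hb2'⟩ := (hb1.and hD).exists
      have : d ≤ |⟪W b1 e, g⟫ - l| + |⟪W (b1 ∪ b2) f, g⟫ - ⟪W b1 e, g⟫| +
          |⟪W (b1 ∪ b2) f, g⟫ - ⟪e, g⟫| := by
        rw [hd]
        have e1 : l - ⟪e, g⟫ = -(⟪W b1 e, g⟫ - l) + -(⟪W (b1 ∪ b2) f, g⟫ - ⟪W b1 e, g⟫) +
            (⟪W (b1 ∪ b2) f, g⟫ - ⟪e, g⟫) := by ring
        rw [e1]
        refine (abs_add_le _ _).trans ?_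
        refine add_le_add ((abs_add_le _ _).trans ?_) le_rfl
        rw [abs_neg, abs_neg]
      linarith
    rw [← this]
    exact hl
  -- step 2 : strong convergence
  have h2 : Tendsto (fun b => ‖W b e - e‖) (p : Filter (Finset ℕ)) (𝓝 0) := by
    have h3 : Tendsto (fun b => ‖W b e - e‖ ^ 2) (p : Filter (Finset ℕ)) (𝓝 0) := by
      have h4 : ∀ b, ‖W b e - e‖ ^ 2 = 2 * ‖e‖ ^ 2 - 2 * ⟪W b e, e⟫ := by
        intro b
        rw [norm_sub_sq_real, hW]
        ring
      simp_rw [h4]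
      have h5 := (h1 e).const_mul 2
      have h6 := h5.const_sub (2 * ‖e‖ ^ 2)
      have h7 : 2 * ‖e‖ ^ 2 - 2 * ⟪e, e⟫ = 0 := by
        rw [real_inner_self_eq_norm_sq]
        ring
      rw [h7] at h6
      exact h6
    have h8 := (Real.continuous_sqrt.tendsto 0).comp h3
    simp only [Real.sqrt_zero] at h8
    refine h8.congr fun b => ?_
    simp [Function.comp, Real.sqrt_sq (norm_nonneg _)]
  -- a general consequence
  have h3 : ∀ g : H, Tendsto (fun b => ⟪g, W b f⟫) (p : Filter (Finset ℕ)) (𝓝 ⟪g, e⟫) := by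
    intro g
    have := he g
    simp_rw [real_inner_comm _ g] at this ⊢
    exact this
  -- step 3 : `⟪U e, f⟫ = ⟪U e, e⟫` for `U` commuting with all `W b`
  have h4 : ∀ U : H →L[ℝ] H, (∀ b x, U (W b x) = W b (U x)) → ⟪U e, f⟫ = ⟪U e, e⟫ := by
    intro U hU
    have h5 : ∀ b, ⟪U e, f⟫ = ⟪U (W b e - e), W b f⟫ + ⟪U e, W b f⟫ := by
      intro b
      rw [← inner_add_left, ← map_add, sub_add_cancel, hU, hWi]
    have h6 : Tendsto (fun b => ⟪U (W b e - e), W b f⟫ + ⟪U e, W b f⟫)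
        (p : Filter (Finset ℕ)) (𝓝 (0 + ⟪U e, e⟫)) := by
      refine Tendsto.add ?_ (h3 (U e))
      have h7 : Tendsto (fun b => ‖U‖ * ‖W b e - e‖ * ‖f‖) (p : Filter (Finset ℕ)) (𝓝 0) := by
        have := (h2.const_mul ‖U‖).mul_const ‖f‖
        simpa using this
      refine squeeze_zero_norm (fun b => ?_) h7
      refine (abs_real_inner_le_norm _ _).trans ?_
      rw [hW]
      exact mul_le_mul_of_nonneg_right (U.le_opNorm _) (norm_nonneg f)
    rw [zero_add] at h6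
    refine tendsto_nhds_unique ?_ h6
    refine tendsto_const_nhds.congr fun b => h5 b
  -- conclusion
  have hc' : c = ‖e‖ ^ 2 := by
    have h5 : c = ⟪e, f⟫ := tendsto_nhds_unique hc (he f)
    have h6 := h4 (ContinuousLinearMap.id ℝ H) (fun b x => rfl)
    simp only [ContinuousLinearMap.id_apply] at h6
    rw [h5, h6, real_inner_self_eq_norm_sq]
  have ha' : a = ⟪V e, e⟫ := by
    have h5 : Tendsto (fun b => ⟪V (W b f), f⟫) (p : Filter (Finset ℕ)) (𝓝 ⟪V e, f⟫) := by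
      have := he ((ContinuousLinearMap.adjoint V) f)
      simpa [ContinuousLinearMap.adjoint_inner_right] using this
    rw [tendsto_nhds_unique ha h5, h4 V hcomm]
  rw [ha', hc']
  calc ⟪V e, e⟫ ≤ ‖V e‖ * ‖e‖ := real_inner_le_norm _ _
    _ = ‖e‖ ^ 2 := by rw [hV]; ring

end MP018e
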