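import Mathlib
import Pool.Agent.Lib.MP_018e2a_an.HilbertIP

set_option autoImplicit false

open Filter Topology MeasureTheory
open scoped RealInnerProductSpace

namespace MP018e

/-! ### Chains -/

/-- `s` is obtained from `t` by adding a good earlier part. -/
def Rel (G : Finset ℕ → Finset ℕ → Prop) (s t : Finset ℕ) : Prop :=
  ∃ a : Finset ℕ, a.Nonempty ∧ Disjoint a t ∧ s = a ∪ t ∧ G a t

theorem exists_chain {p : Ultrafilter (Finset ℕ)} (hp : Idem p) (J : ℕ) :
    ∀ (G : Finset ℕ → Finset ℕ → Prop) (Q : Finset ℕ → Prop),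
      (∀ a : Finset ℕ, a.Nonempty → ∀ᶠ b in (p : Filter (Finset ℕ)), G a b) →
      (∀ᶠ b in (p : Filter (Finset ℕ)), Q b) →
      ∃ s : Fin (J + 1) → Finset ℕ, (∀ j, Q (s j)) ∧ (∀ j k, j < k → Rel G (s j) (s k)) := by
  induction J with
  | zero =>
    intro G Q _ hQ
    obtain ⟨b, hb⟩ := hQ.exists
    refine ⟨fun _ => b, fun _ => hb, ?_⟩
    intro j k hjk
    exact absurd hjk (by omega)
  | succ J ih =>
    intro G Q hG hQ
    obtain ⟨g, hgQ, hgne⟩ := ((hp.idem Q hQ).and hp.nonempty).exists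
    have hG' : ∀ a : Finset ℕ, a.Nonempty → ∀ᶠ b in (p : Filter (Finset ℕ)),
        G a b ∧ G (g ∪ a) b := by
      intro a ha
      filter_upwards [hG a ha, hG (g ∪ a) (ha.mono Finset.subset_union_right)] with b h1 h2
      exact ⟨h1, h2⟩
    have hQ' : ∀ᶠ b in (p : Filter (Finset ℕ)), Q b ∧ Q (g ∪ b) ∧ G g b ∧ Disjoint g b := by
      filter_upwards [hQ, hgQ, hG g hgne, hp.disj g] with b h1 h2 h3 h4
      exact ⟨h1, h2, h3, h4⟩
    obtain ⟨s, hs, hs'⟩ := ih (fun a b => G a b ∧ G (g ∪ a) b)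
      (fun b => Q b ∧ Q (g ∪ b) ∧ G g b ∧ Disjoint g b) hG' hQ'
    refine ⟨Fin.cons (g ∪ s 0) s, ?_, ?_⟩
    · intro j
      refine Fin.cases ?_ (fun i => ?_) j
      · exact (hs 0).2.1
      · exact (hs i).1
    · intro j k
      refine Fin.cases ?_ (fun i => ?_) j
      · refine Fin.cases (fun h => absurd h (lt_irrefl _)) (fun i _ => ?_) k
        rw [Fin.cons_zero, Fin.cons_succ]
        rcases Fin.eq_zero_or_eq_succ i with h | ⟨i', h⟩
        · rw [h]
          exact ⟨g, hgne, (hs 0).2.2.2, rfl, (hs 0).2.2.1⟩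
        · have hlt : (0 : Fin (J + 1)) < i := by
            rw [h]
            exact Fin.succ_pos i'
          obtain ⟨a, ha, hd, he, hG1, hG2⟩ := hs' 0 i hlt
          refine ⟨g ∪ a, ha.mono Finset.subset_union_right, ?_, ?_, hG2⟩
          · rw [Finset.disjoint_union_left]
            refine ⟨?_, hd⟩
            have h5 := (hs 0).2.2.2
            rw [he] at h5
            exact (Finset.disjoint_union_right.1 h5).2
          · rw [he, Finset.union_assoc]
      · refine Fin.cases (fun h => ?_) (fun i' h => ?_) k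
        · exact absurd h (by simp)
        · rw [Fin.cons_succ, Fin.cons_succ]
          have hlt : i < i' := by simpa using h
          obtain ⟨a, ha, hd, he, hG1, _⟩ := hs' i i' hlt
          exact ⟨a, ha, hd, he, hG1⟩

/-! ### Products over pairs -/

section Prod

variable {M : Type*} [CommMonoid M] (t : ℕ × ℕ → M)

/-- product over `γ × γ` -/
def vv (g : Finset ℕ) : M := ∏ q ∈ g ×ˢ g, t q

/-- product over `α × β ∪ β × α` -/
def bb (a b : Finset ℕ) : M := (∏ q ∈ a ×ˢ b, t q) * ∏ q ∈ b ×ˢ a, t q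

theorem bb_union (a b c : Finset ℕ) (h : Disjoint b c) :
    bb t a (b ∪ c) = bb t a b * bb t a c := by
  unfold bb
  simp only [Finset.prod_product, Finset.prod_union h, Finset.prod_mul_distrib]
  rw [mul_mul_mul_comm]

theorem vv_union (a b : Finset ℕ) (h : Disjoint a b) :
    vv t (a ∪ b) = vv t a * bb t a b * vv t b := by
  unfold vv bb
  simp only [Finset.prod_product, Finset.prod_union h, Finset.prod_mul_distrib]
  simp only [mul_assoc]

end Prod

/-! ### Koopman isometries -/

section Koop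

variable {X : Type*} [MeasurableSpace X] {μ : Measure X}

/-- The Koopman isometry of a measure preserving map. -/
noncomputable def koop (f : X → X) (hf : MeasurePreserving f μ μ) : Lp ℝ 2 μ →L[ℝ] Lp ℝ 2 μ :=
  (Lp.compMeasurePreservingₗᵢ ℝ f hf).toContinuousLinearMap

theorem koop_norm (f : X → X) (hf : MeasurePreserving f μ μ) (x : Lp ℝ 2 μ) :
    ‖koop f hf x‖ = ‖x‖ := (Lp.compMeasurePreservingₗᵢ ℝ f hf).norm_map x

theorem koop_inner (f : X → X) (hf : MeasurePreserving f μ μ) (x y : Lp ℝ 2 μ) :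
    ⟪koop f hf x, koop f hf y⟫ = ⟪x, y⟫ := (Lp.compMeasurePreservingₗᵢ ℝ f hf).inner_map_map x y

theorem koop_comp (f g : X → X) (hf : MeasurePreserving f μ μ) (hg : MeasurePreserving g μ μ)
    (x : Lp ℝ 2 μ) : koop (f ∘ g) (hf.comp hg) x = koop g hg (koop f hf x) :=
  Lp.compMeasurePreserving_comp_apply x hf hg

variable [IsProbabilityMeasure μ]

/-- the indicator of a set in `L²` -/
noncomputable def ind (μ : Measure X) [IsProbabilityMeasure μ] {A : Set X} (hA : MeasurableSet A) :
    Lp ℝ 2 μ := indicatorConstLp 2 hA (measure_ne_top μ A) (1 : ℝ)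

theorem ind_inner {A B : Set X} (hA : MeasurableSet A) (hB : MeasurableSet B) :
    ⟪ind μ hA, ind μ hB⟫ = μ.real (A ∩ B) :=
  L2.real_inner_indicatorConstLp_one_indicatorConstLp_one hA hB

theorem koop_ind (f : X → X) (hf : MeasurePreserving f μ μ) {A : Set X} (hA : MeasurableSet A) :
    koop f hf (ind μ hA) = ind μ (hf.measurable hA) :=
  Lp.indicatorConstLp_compMeasurePreserving hA (measure_ne_top μ A) (1 : ℝ) hf

end Koop

end MP018e
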