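import Mathlib
import Pool.Agent.Lib.MP_018e2a_an.Core

set_option autoImplicit false

open Filter Topology MeasureTheory
open scoped RealInnerProductSpace

namespace MP018e

variable {X : Type*} [MeasurableSpace X] {μ : Measure X} [IsProbabilityMeasure μ]
  {M : Type*} [CommMonoid M]

theorem half_bound {p : Ultrafilter (Finset ℕ)} (hp : Idem p) (φ : M → X → X)
    (hmul : ∀ a b, φ (a * b) = φ a ∘ φ b)
    (hφ : ∀ m, MeasurePreserving (φ m) μ μ) (t : ℕ × ℕ → M) {A : Set X} (hA : MeasurableSet A)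
    (a : Finset ℕ) (c : ℝ) (h0 : μ.real (A ∩ φ (vv t a) ⁻¹' A) ≤ c) (η : ℝ) (hη : 0 < η) :
    ∀ᶠ b in (p : Filter (Finset ℕ)),
      μ.real (φ (vv t a * bb t a b) ⁻¹' A ∩ A) < (μ.real A + c) / 2 + η := by
  set U : M → (Lp ℝ 2 μ →L[ℝ] Lp ℝ 2 μ) := fun m => koop (φ m) (hφ m) with hU
  have hUmul : ∀ m n x, U (m * n) x = U m (U n x) := by
    intro m n x
    have h1 : U (m * n) x = U (n * m) x := by rw [mul_comm]
    rw [h1]
    have h2 : ∀ (f g : X → X) (h : f = g) (hf : MeasurePreserving f μ μ)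
        (hg : MeasurePreserving g μ μ), koop f hf x = koop g hg x := by
      intro f g h hf hg
      subst h
      rfl
    rw [hU]
    simp only
    rw [h2 _ _ (hmul n m) (hφ _) ((hφ n).comp (hφ m))]
    exact koop_comp _ _ _ _ _
  set f := ind μ hA with hf
  have hin : ∀ m, ⟪U m f, f⟫ = μ.real (φ m ⁻¹' A ∩ A) := by
    intro m
    rw [hf, hU]
    simp only
    rw [koop_ind, ind_inner]
  set W : Finset ℕ → (Lp ℝ 2 μ →L[ℝ] Lp ℝ 2 μ) := fun b => U (bb t a b) with hW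
  set V := U (vv t a) with hV
  have hbd : ∀ m, |μ.real (φ m ⁻¹' A ∩ A)| ≤ 1 := by
    intro m
    rw [abs_of_nonneg measureReal_nonneg]
    exact measureReal_le_one
  obtain ⟨l1, hl1⟩ := exists_lim p (fun b => μ.real (φ (vv t a * bb t a b) ⁻¹' A ∩ A)) 1
    (fun b => hbd _)
  obtain ⟨l2, hl2⟩ := exists_lim p (fun b => μ.real (φ (bb t a b) ⁻¹' A ∩ A)) 1
    (fun b => hbd _)
  have hle : l1 ≤ l2 := by
    refine ip_le hp W V (fun b x => koop_norm _ _ x) (fun x => koop_norm _ _ x)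
      (fun b x y => koop_inner _ _ x y) ?_ ?_ f l1 l2 ?_ ?_
    · intro a'
      filter_upwards [hp.disj a'] with b hb
      intro x
      show U (bb t a (a' ∪ b)) x = U (bb t a a') (U (bb t a b) x)
      rw [bb_union t a a' b hb, hUmul]
    · intro b x
      show U (vv t a) (U (bb t a b) x) = U (bb t a b) (U (vv t a) x)
      rw [← hUmul, ← hUmul, mul_comm]
    · refine hl1.congr fun b => ?_
      show _ = ⟪U (vv t a) (U (bb t a b) f), f⟫
      rw [← hUmul, hin]
    · refine hl2.congr fun b => ?_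
      show _ = ⟪U (bb t a b) f, f⟫
      rw [hin]
  have hsum : l1 + l2 ≤ μ.real A + c := by
    refine le_of_tendsto (hl1.add hl2) (Eventually.of_forall fun b => ?_)
    have hm1 : MeasurableSet (φ (vv t a * bb t a b) ⁻¹' A ∩ A) :=
      ((hφ _).measurable hA).inter hA
    have hm2 : MeasurableSet (φ (bb t a b) ⁻¹' A ∩ A) := ((hφ _).measurable hA).inter hA
    have hint : μ.real ((φ (vv t a * bb t a b) ⁻¹' A ∩ A) ∩ (φ (bb t a b) ⁻¹' A ∩ A)) ≤ c := by
      have hs1 : (φ (vv t a * bb t a b) ⁻¹' A ∩ A) ∩ (φ (bb t a b) ⁻¹' A ∩ A) ⊆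
          φ (bb t a b) ⁻¹' (A ∩ φ (vv t a) ⁻¹' A) := by
        rintro x ⟨⟨h1, _⟩, ⟨h2, _⟩⟩
        refine ⟨h2, ?_⟩
        have : φ (vv t a * bb t a b) x = φ (vv t a) (φ (bb t a b) x) := by rw [hmul]; rfl
        rw [Set.mem_preimage, this] at h1
        exact h1
      refine (measureReal_mono hs1).trans ?_
      rw [measureReal_def, (hφ _).measure_preimage
        (hA.inter ((hφ _).measurable hA)).nullMeasurableSet]
      exact h0
    have h2 := measureReal_union_add_inter (μ := μ) (s := φ (vv t a * bb t a b) ⁻¹' A ∩ A)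
      (t := φ (bb t a b) ⁻¹' A ∩ A) hm2
    have h3 : μ.real ((φ (vv t a * bb t a b) ⁻¹' A ∩ A) ∪ (φ (bb t a b) ⁻¹' A ∩ A)) ≤ μ.real A :=
      measureReal_mono (Set.union_subset Set.inter_subset_right Set.inter_subset_right)
    linarith
  have hl1' : l1 < (μ.real A + c) / 2 + η := by linarith
  exact hl1.eventually_lt_const hl1'

theorem core (φ : M → X → X) (hmul : ∀ a b, φ (a * b) = φ a ∘ φ b)
    (hφ : ∀ m, MeasurePreserving (φ m) μ μ) (t : ℕ × ℕ → M) {A : Set X} (hA : MeasurableSet A)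
    (c : ℝ) (hc0 : 0 ≤ c) (hcA : c < μ.real A)
    (hδ : (1 - μ.real A) * (μ.real A + c) < 2 * (μ.real A - c) ^ 2) :
    ∃ γ : Finset ℕ, γ.Nonempty ∧ c < μ.real (A ∩ φ (vv t γ) ⁻¹' A) := by
  by_contra hcon
  push Not at hcon
  have h0 : ∀ γ : Finset ℕ, γ.Nonempty → μ.real (A ∩ φ (vv t γ) ⁻¹' A) ≤ c := hcon
  obtain ⟨p, hp⟩ := exists_idem
  set δ := μ.real A with hδdef
  have hδ1 : δ ≤ 1 := measureReal_le_one
  set κ := (δ - c) ^ 2 - (1 - δ) * (δ + c) / 2 with hκ
  have hκ0 : 0 < κ := by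
    rw [hκ]
    linarith
  obtain ⟨J, hJ⟩ := exists_nat_gt (4 / κ)
  set η := κ / 4 with hη
  have hη0 : 0 < η := by positivity
  obtain ⟨s, hs, hs'⟩ := exists_chain hp J
    (fun a b => μ.real (φ (vv t a * bb t a b) ⁻¹' A ∩ A) < (δ + c) / 2 + η)
    (fun b => b.Nonempty)
    (fun a ha => half_bound hp φ hmul hφ t hA a c (h0 a ha) η hη0) hp.nonempty
  -- Hilbert space
  set U : M → (Lp ℝ 2 μ →L[ℝ] Lp ℝ 2 μ) := fun m => koop (φ m) (hφ m) with hU
  have hUmul : ∀ m n x, U (m * n) x = U m (U n x) := by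
    intro m n x
    have h1 : U (m * n) x = U (n * m) x := by rw [mul_comm]
    rw [h1]
    have h2 : ∀ (f g : X → X) (h : f = g) (hf : MeasurePreserving f μ μ)
        (hg : MeasurePreserving g μ μ), koop f hf x = koop g hg x := by
      intro f g h hf hg
      subst h
      rfl
    rw [hU]
    simp only
    rw [h2 _ _ (hmul n m) (hφ _) ((hφ n).comp (hφ m))]
    exact koop_comp _ _ _ _ _
  set f := ind μ hA with hf
  set g := ind μ hA.compl with hg
  have hin : ∀ m, ⟪U m f, f⟫ = μ.real (φ m ⁻¹' A ∩ A) := by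
    intro m
    rw [hf, hU]
    simp only
    rw [koop_ind, ind_inner]
  let u : Fin (J + 1) → Lp ℝ 2 μ := fun j => U (vv t (s j)) f
  have huu : ∀ j, ⟪u j, u j⟫ = δ := by
    intro j
    show ⟪U _ f, U _ f⟫ = δ
    rw [hU]
    simp only
    rw [koop_inner, hf, ind_inner, Set.inter_self]
  have hjk : ∀ j k, j < k → ⟪u j, u k⟫ ≤ (δ + c) / 2 + η := by
    intro j k hlt
    obtain ⟨a, ha, hd, he, hG⟩ := hs' j k hlt
    show ⟪U (vv t (s j)) f, U (vv t (s k)) f⟫ ≤ (δ + c) / 2 + η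
    rw [he, vv_union t a (s k) hd, mul_comm _ (vv t (s k)), hUmul]
    have h1 : ⟪U (vv t (s k)) (U (vv t a * bb t a (s k)) f), U (vv t (s k)) f⟫ =
        ⟪U (vv t a * bb t a (s k)) f, f⟫ := koop_inner _ _ _ _
    rw [h1, hin]
    exact hG.le
  have hjk' : ∀ j k, ⟪u j, u k⟫ ≤ (if j = k then δ else 0) + ((δ + c) / 2 + η) := by
    intro j k
    have h3 : 0 ≤ (δ + c) / 2 + η := by positivity
    rcases lt_trichotomy j k with h | h | h
    · rw [if_neg h.ne, zero_add]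
      exact hjk j k h
    · rw [if_pos h, h, huu]
      linarith
    · rw [if_neg h.ne', zero_add, real_inner_comm]
      exact hjk k j h
  set F := ∑ j, u j with hF
  have hFF : ⟪F, F⟫ ≤ (J + 1) * δ + (J + 1) ^ 2 * ((δ + c) / 2 + η) := by
    rw [hF, sum_inner]
    simp_rw [inner_sum]
    calc ∑ j, ∑ k, ⟪u j, u k⟫ ≤ ∑ j : Fin (J + 1), ∑ k : Fin (J + 1),
        ((if j = k then δ else 0) + ((δ + c) / 2 + η)) :=
          Finset.sum_le_sum fun j _ => Finset.sum_le_sum fun k _ => hjk' j k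
      _ = (J + 1) * δ + (J + 1) ^ 2 * ((δ + c) / 2 + η) := by
          simp only [Finset.sum_add_distrib, Finset.sum_ite_eq, Finset.mem_univ, if_true,
            Finset.sum_const, Finset.card_univ, Fintype.card_fin, nsmul_eq_mul]
          push_cast
          ring
  have hgu : ∀ j, δ - c ≤ ⟪g, u j⟫ := by
    intro j
    show δ - c ≤ ⟪g, U (vv t (s j)) f⟫
    rw [hU]
    simp only
    rw [hf, koop_ind, hg, ind_inner]
    have h1 : μ.real (Aᶜ ∩ φ (vv t (s j)) ⁻¹' A) + μ.real (A ∩ φ (vv t (s j)) ⁻¹' A) =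
        μ.real (φ (vv t (s j)) ⁻¹' A) := by
      have := measureReal_inter_add_sdiff (μ := μ) (s := φ (vv t (s j)) ⁻¹' A) hA
      rw [add_comm, Set.inter_comm A, Set.inter_comm Aᶜ, ← Set.sdiff_eq]
      exact this
    have h2 := h0 _ (hs j)
    have h3 : μ.real (φ (vv t (s j)) ⁻¹' A) = δ := by
      rw [measureReal_def, (hφ _).measure_preimage hA.nullMeasurableSet, hδdef, measureReal_def]
    linarith
  have hgF : (J + 1) * (δ - c) ≤ ⟪g, F⟫ := by
    rw [hF, inner_sum]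
    calc (J + 1 : ℝ) * (δ - c) = ∑ _j : Fin (J + 1), (δ - c) := by
            rw [Finset.sum_const, Finset.card_univ, Fintype.card_fin, nsmul_eq_mul]
            push_cast
            ring
      _ ≤ _ := Finset.sum_le_sum fun j _ => hgu j
  have hgg : ⟪g, g⟫ = 1 - δ := by
    rw [hg, ind_inner, Set.inter_self, measureReal_compl hA]
    simp [hδdef]
  have hCS : ⟪g, F⟫ * ⟪g, F⟫ ≤ ⟪g, g⟫ * ⟪F, F⟫ := real_inner_mul_inner_self_le g F
  rw [hgg] at hCS
  have hN : (0 : ℝ) < J + 1 := by positivity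
  have hdc : 0 < δ - c := by linarith
  have h1 : ((J + 1 : ℝ) * (δ - c)) * ((J + 1) * (δ - c)) ≤
      (1 - δ) * ((J + 1) * δ + (J + 1) ^ 2 * ((δ + c) / 2 + η)) := by
    refine le_trans ?_ (hCS.trans (mul_le_mul_of_nonneg_left hFF (by linarith)))
    exact mul_self_le_mul_self (by positivity) hgF
  have h2 : (J + 1 : ℝ) * ((δ - c) * (δ - c)) ≤
      (1 - δ) * (δ + (J + 1) * ((δ + c) / 2 + η)) := by
    have h3 : (J + 1 : ℝ) * ((J + 1 : ℝ) * ((δ - c) * (δ - c))) ≤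
        (J + 1) * ((1 - δ) * (δ + (J + 1) * ((δ + c) / 2 + η))) := by
      calc (J + 1 : ℝ) * ((J + 1 : ℝ) * ((δ - c) * (δ - c)))
          = ((J + 1 : ℝ) * (δ - c)) * ((J + 1) * (δ - c)) := by ring
        _ ≤ _ := h1
        _ = _ := by ring
    exact le_of_mul_le_mul_left h3 hN
  have h4 : 4 < κ * (J + 1) := by
    have := (div_lt_iff₀ hκ0).1 hJ
    nlinarith
  have h5 : (J + 1 : ℝ) * κ ≤ (1 - δ) * (δ + (J + 1) * η) := by
    have e1 : (J + 1 : ℝ) * κ = (J + 1 : ℝ) * ((δ - c) * (δ - c)) -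
        (J + 1) * ((1 - δ) * (δ + c) / 2) := by
      rw [hκ]
      ring
    rw [e1]
    have e2 : (1 - δ) * (δ + (J + 1) * ((δ + c) / 2 + η)) =
        (1 - δ) * (δ + (J + 1) * η) + (J + 1) * ((1 - δ) * (δ + c) / 2) := by ring
    linarith
  have h6 : (1 - δ) * (δ + (J + 1) * η) ≤ 1 + (J + 1) * η := by
    have h7 : 0 ≤ (J + 1) * η := by positivity
    have h8 : 0 ≤ δ := by linarith
    nlinarith
  rw [hη] at h5 h6
  nlinarith

end MP018e
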